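import Mathlib

/-! Quadratic units. -/

namespace Pool.Agent.MP_4168de_an

open Polynomial

lemma quad_of_unit {c : ℝ} (hint : IsIntegral ℤ c) (hdeg : (minpoly ℚ c).natDegree = 2)
    {q : ℤ[X]} (hq : aeval c q = 0) (hu : IsUnit (q.coeff 0)) :
    ∃ t N : ℤ, c ^ 2 - t * c + N = 0 ∧ (N = 1 ∨ N = -1) := by
  have h1 := minpoly.isIntegrallyClosed_eq_field_fractions' ℚ hint
  have hm := minpoly.monic hint
  rw [h1, hm.natDegree_map] at hdeg
  have h2 := minpoly.aeval ℤ c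
  rw [aeval_eq_sum_range, hdeg] at h2
  have h3 : (minpoly ℤ c).coeff 2 = 1 := hdeg ▸ hm.coeff_natDegree
  obtain ⟨r, hr⟩ := minpoly.isIntegrallyClosed_dvd hint hq
  rw [hr, mul_coeff_zero] at hu
  refine ⟨-(minpoly ℤ c).coeff 1, (minpoly ℤ c).coeff 0, ?_,
    Int.isUnit_iff.1 (isUnit_of_mul_isUnit_left hu)⟩
  simp only [Finset.sum_range_succ, Finset.sum_range_zero, h3, zsmul_eq_mul] at h2
  push_cast at h2 ⊢
  linarith

lemma quad_pow {c : ℝ} {t N : ℤ} (h : c ^ 2 - t * c + N = 0) (hN : N = 1 ∨ N = -1) (k : ℕ) :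
    ∃ t' N' : ℤ, (c ^ k) ^ 2 - t' * c ^ k + N' = 0 ∧ (N' = 1 ∨ N' = -1) := by
  have key : ∀ k : ℕ, ∃ p : ℤ, c ^ k + (t - c) ^ k = p := by
    intro k
    induction k using Nat.twoStepInduction with
    | zero => exact ⟨2, by norm_num⟩
    | one => exact ⟨t, by simp⟩
    | more k h0 h1 =>
      obtain ⟨p, hp⟩ := h0
      obtain ⟨p', hp'⟩ := h1
      refine ⟨t * p' - N * p, ?_⟩
      push_cast
      rw [← hp, ← hp']
      linear_combination (c ^ k + (t - c) ^ k) * h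
  obtain ⟨p, hp⟩ := key k
  refine ⟨p, N ^ k, ?_, ?_⟩
  · have : (N : ℝ) = c * (t - c) := by linear_combination h
    push_cast
    rw [← hp, this, mul_pow]
    ring
  · rcases hN with rfl | rfl
    · simp
    · exact neg_one_pow_eq_or ℤ k

lemma exists_unit_poly {n : ℕ} {M : Matrix (Fin n) (Fin n) ℤ} {c : ℝ} (hc : c ≠ 0)
    {ℓ : Fin n → ℝ} (hℓ : ℓ ≠ 0) (heig : ∀ j, ∑ i, ℓ i * M i j = c * ℓ j)
    (h : IsUnit M.det ∨ IsIntegral ℤ c⁻¹) : ∃ q : ℤ[X], aeval c q = 0 ∧ IsUnit (q.coeff 0) := by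
  rcases h with h | ⟨p, h1, h2⟩
  · refine ⟨M.charpoly, ?_, ?_⟩
    · rw [← eval_map_algebraMap, ← Matrix.charpoly_map, Matrix.eval_charpoly,
        ← Matrix.exists_vecMul_eq_zero_iff]
      refine ⟨ℓ, hℓ, funext fun j => ?_⟩
      rw [Matrix.vecMul_sub]
      simp only [Matrix.scalar_apply, Pi.sub_apply, Matrix.vecMul_diagonal]
      simp only [Matrix.vecMul, dotProduct, Matrix.map_apply, eq_intCast, heig]
      simp [mul_comm]
    · rw [Matrix.det_eq_sign_charpoly_coeff] at h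
      exact isUnit_of_mul_isUnit_right h
  · refine ⟨p.reverse, ?_, by rw [coeff_zero_reverse, h1.leadingCoeff]; exact isUnit_one⟩
    have := invertibleOfNonzero (inv_ne_zero hc)
    have h3 := (eval₂_reverse_eq_zero_iff (algebraMap ℤ ℝ) c⁻¹ p).2 h2
    rwa [invOf_eq_inv, inv_inv] at h3

end Pool.Agent.MP_4168de_an
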