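import Mathlib

/-! One-dimensional substitution tiling spaces and first Cech cohomology. -/

namespace Pool.Agent.MP_4168de_an

/-- A set of tiles: the pair `(a, p)` is a tile of type `a` with left endpoint `p`. -/
structure Patch (A : Type) where
  tiles : Set (A × ℝ)

variable {A : Type}

/-- The local topology: `T'` is near `T` if they agree on the ball of radius `1 / ε` after a
translation by less than `ε`. -/
instance : TopologicalSpace (Patch A) :=
  TopologicalSpace.generateFrom {O | ∀ T ∈ O, ∃ ε : ℝ, 0 < ε ∧ ∀ T' : Patch A,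
    (∃ s : ℝ, |s| < ε ∧ ∀ a q, |q| < ε⁻¹ → ((a, q) ∈ T.tiles ↔ (a, q + s) ∈ T'.tiles)) → T' ∈ O}

instance : MeasurableSpace (Patch A) := borel (Patch A)

/-- The translate `T + t`. -/
def translate (t : ℝ) (T : Patch A) : Patch A := ⟨{x | (x.1, x.2 - t) ∈ T.tiles}⟩

/-- `T` is a tiling of the line by intervals, a tile of type `a` having length `ℓ a`. -/
def IsTiling (ℓ : A → ℝ) (T : Patch A) : Prop :=
  ∃ (x : ℤ → A) (p : ℤ → ℝ), (∀ i, p (i + 1) = p i + ℓ (x i)) ∧
    T.tiles = Set.range fun i => (x i, p i)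

/-- Stretch every tile by `c` and subdivide it according to `σ`. -/
def inflate (σ : A → List A) (ℓ : A → ℝ) (c : ℝ) (T : Patch A) : Patch A :=
  ⟨{x | ∃ a p, (a, p) ∈ T.tiles ∧ ∃ u v : List A, σ a = u ++ x.1 :: v ∧
    x.2 = c * p + (u.map ℓ).sum}⟩

/-- The closure of the translation orbit. -/
def hull (T : Patch A) : Set (Patch A) := closure (Set.range fun t : ℝ => translate t T)

/-- Cech 1-cochains that are cocycles on the nerve of some open cover `(U x)`, `x ∈ U x`. -/
def cechZ (X : Type) [TopologicalSpace X] : Submodule ℚ (X → X → ℚ) :=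
  Submodule.span ℚ {c | ∃ U : X → Set X, (∀ x, IsOpen (U x) ∧ x ∈ U x) ∧
    ∀ x y z, (U x ∩ U y ∩ U z).Nonempty → c y z - c x z + c x y = 0}

/-- Cech 1-cochains that are coboundaries on the nerve of some open cover `(U x)`, `x ∈ U x`. -/
def cechB (X : Type) [TopologicalSpace X] : Submodule ℚ (X → X → ℚ) :=
  Submodule.span ℚ {c | ∃ U : X → Set X, (∀ x, IsOpen (U x) ∧ x ∈ U x) ∧
    ∃ b : X → ℚ, ∀ x y, (U x ∩ U y).Nonempty → c x y = b y - b x}

/-- The dimension of the image of `Z` in the quotient by `B`. -/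
noncomputable def quotRank {V : Type} [AddCommGroup V] [Module ℚ V] (Z B : Submodule ℚ V) :
    Cardinal :=
  Module.rank ℚ (Z.map B.mkQ)

/-- The dimension of the first Cech cohomology with rational coefficients. -/
noncomputable def cechRank (X : Type) [TopologicalSpace X] : Cardinal :=
  quotRank (cechZ X) (cechB X)

/-- The linear span of `S` is dense. -/
def DenseSpan {E : Type} [NormedAddCommGroup E] [NormedSpace ℂ E] (S : Set E) : Prop :=
  (Submodule.span ℂ S).topologicalClosure = ⊤

/-- Square-integrable eigenfunctions of the translation action. -/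
def eigenfunctions (μ : MeasureTheory.Measure (Patch A)) : Set (MeasureTheory.Lp ℂ 2 μ) :=
  {f | ∃ α : ℝ, ∀ t : ℝ, ∀ᵐ T ∂μ,
    f (translate t T) = Complex.exp (2 * Real.pi * Complex.I * α * t) * f T}

/-- Pure point spectrum: the eigenfunctions span a dense subspace of `L²`. -/
def PurePoint (μ : MeasureTheory.Measure (Patch A)) : Prop := DenseSpan (eigenfunctions μ)

end Pool.Agent.MP_4168de_an
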