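import Pool.Agent.MP_4168de_an.Spec
import Pool.Agent.MP_4168de_an.Subst
import Pool.Agent.MP_4168de_an.Arith

/-! The degree two case. -/

namespace Pool.Agent.MP_4168de_an

open Set Filter Topology MeasureTheory

theorem quadratic_unit {A : Type} [Finite A] (σ : A → List A) {c : ℝ} (hc : 1 < c) {ℓ : A → ℝ}
    (hℓ : ∀ i, 0 < ℓ i) (heig : ∀ a, ((σ a).map ℓ).sum = c * ℓ a) {t N : ℤ}
    (hq : c ^ 2 - t * c + N = 0) (hN : N = 1 ∨ N = -1) {T₀ : Patch A} (htil : IsTiling ℓ T₀)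
    (hfix : ∃ k, 0 < k ∧ (inflate σ ℓ c)^[k] T₀ = T₀) (hmin : ∀ T ∈ hull T₀, T₀ ∈ hull T)
    (hrank : cechRank (hull T₀) = 2) (μ : Measure (Patch A)) [IsProbabilityMeasure μ]
    (hμ : μ (hull T₀)ᶜ = 0) (hinv : ∀ t, MeasurePreserving (translate t) μ μ) :
    (Submodule.span ℂ {f : Lp ℂ 2 μ | ∃ α : ℝ, ∀ t : ℝ, ∀ᵐ T ∂μ,
      f (translate t T) = Complex.exp (2 * Real.pi * Complex.I * α * t) * f T}).topologicalClosure
      = ⊤ := by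
  let : TopologicalSpace A := ⊥
  have : DiscreteTopology A := ⟨rfl⟩
  obtain ⟨x₀, t₀, rfl⟩ := htil.exists_θ
  have : Nonempty A := ⟨x₀ 0⟩
  obtain ⟨l₀, l₁, h0, h1, h2⟩ := exists_len_bounds hℓ
  have hσ : ∀ a, σ a ≠ [] := fun a h => by
    have := heig a
    rw [h] at this
    exact (mul_pos (by linarith) (hℓ a)).ne this
  obtain ⟨k, hk, hfix⟩ := hfix
  rw [inflate_iterate σ hσ heig] at hfix
  obtain ⟨m, hm, -⟩ := θ_eq hℓ hfix
  let D : Shift A := ⟨orb x₀, isClosed_closure, orb_inv, ⟨_, sh_mem_orb x₀ 0⟩, orb_min hℓ hmin⟩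
  obtain ⟨τ⟩ := exists_dsub _ D rfl hm
  have hck : 1 < c ^ k := one_lt_pow₀ hc hk.ne'
  obtain ⟨j, hj⟩ := pow_unbounded_of_one_lt (l₁ / l₀) hck
  have hl : 0 < l₁ := (hℓ _).trans_le (h2 (x₀ 0))
  have hj1 : 1 < (c ^ k) ^ j :=
    lt_of_le_of_lt ((one_le_div h0).2 ((h1 _).trans (h2 (x₀ 0)))) hj
  rw [div_lt_iff₀ h0] at hj
  have hr : ∀ x, 2 ≤ (τ.pow j).r x := fun x => by
    have a1 := (τ.pow j).r_ge (by linarith) h1 h2 x
    have a2 : (1 : ℝ) < (τ.pow j).r x := lt_of_mul_lt_mul_left (by linarith) hl.le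
    have a3 : 1 < (τ.pow j).r x := by exact_mod_cast a2
    omega
  obtain ⟨t', N', hq', hN'⟩ := quad_pow hq hN (k * j)
  rw [pow_mul] at hq'
  have hΩ := hull_eq hℓ h2 x₀ t₀
  obtain ⟨L⟩ := exists_lift hℓ (τ.pow j) hr hj1 hq' hN' (rankLe hℓ h2 hΩ hrank)
  exact L.pure_point hℓ hj1 h2 hΩ μ hμ hinv

end Pool.Agent.MP_4168de_an
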