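import Pool.Agent.MP_4168de_an.G.Main

/-! The homological Pisot conjecture for unimodular substitutions. -/

namespace Pool.Agent.MP_4168de_an.OldFull

open MeasureTheory Pool.Agent.MP_4168de_an

theorem result (n : ℕ) (σ : Fin n → List (Fin n)) (M : Matrix (Fin n) (Fin n) ℤ)
    (hM : ∀ i j, M i j = (σ j).count i) (hprim : M.IsPrimitive)
    (c : ℝ) (hc : 1 < c) (ℓ : Fin n → ℝ) (hℓ : ∀ i, 0 < ℓ i)
    (heig : ∀ j, ∑ i, ℓ i * M i j = c * ℓ j)
    (hint : IsIntegral ℤ c) (hpisot : ∀ z ∈ (minpoly ℚ c).aroots ℂ, z ≠ c → ‖z‖ < 1)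
    (hunit : M.det = 1 ∨ M.det = -1)
    (T₀ : Patch (Fin n)) (htil : IsTiling ℓ T₀) (hfix : ∃ k, 0 < k ∧ (inflate σ ℓ c)^[k] T₀ = T₀)
    (hnp : ∀ t, translate t T₀ = T₀ → t = 0)
    (hrank : cechRank (hull T₀) = (minpoly ℚ c).natDegree)
    (μ : Measure (Patch (Fin n))) [IsProbabilityMeasure μ] (hμ : μ (hull T₀)ᶜ = 0)
    (hinv : ∀ t, MeasurePreserving (translate t) μ μ) : PurePoint μ := by
  refine G.glue2 G.pisot_stmt G.lin_stmt G.cech2_stmt G.mat_stmt.1 G.graph_all G.cover_all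
    G.box_stmt.1 G.one_all G.full_all G.spec_all (G.limit_stmt G.mat_stmt.1) G.orbit_stmt σ M hM
    hprim (Int.isUnit_iff.2 hunit) ⟨hc, hint, hpisot, rfl⟩ hℓ (fun j => ?_) htil hfix hnp hrank μ
    hμ hinv
  rw [← heig, Finset.sum_list_map_count, Finset.sum_subset (Finset.subset_univ _)]
  · simp [hM, mul_comm]
  · intro i _ hi
    simp [List.count_eq_zero_of_not_mem (fun h => hi (List.mem_toFinset.2 h))]

end Pool.Agent.MP_4168de_an.OldFull
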