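import Pool.Agent.MP_4168de_an.Main

/-! The homological Pisot conjecture holds when the dilatation is a quadratic unit. -/

namespace Pool.Agent.MP_4168de_an.OldQuadraticUnit

open MeasureTheory Pool.Agent.MP_4168de_an

theorem result (n : ℕ) (σ : Fin n → List (Fin n)) (M : Matrix (Fin n) (Fin n) ℤ)
    (hM : ∀ i j, M i j = (σ j).count i) (_hprim : M.IsPrimitive)
    (c : ℝ) (hc : 1 < c) (ℓ : Fin n → ℝ) (hℓ : ∀ i, 0 < ℓ i)
    (heig : ∀ j, ∑ i, ℓ i * M i j = c * ℓ j)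
    (hint : IsIntegral ℤ c) (_hpisot : ∀ z ∈ (minpoly ℚ c).aroots ℂ, z ≠ c → ‖z‖ < 1)
    (hunit : IsUnit M.det ∨ IsIntegral ℤ c⁻¹)
    (T₀ : Patch (Fin n)) (htil : IsTiling ℓ T₀) (hfix : ∃ k, 0 < k ∧ (inflate σ ℓ c)^[k] T₀ = T₀)
    (_hnp : ∀ t, translate t T₀ = T₀ → t = 0) (hmin : ∀ T ∈ hull T₀, T₀ ∈ hull T)
    (hrank : cechRank (hull T₀) = (minpoly ℚ c).natDegree)
    (hdeg : (minpoly ℚ c).natDegree = 2)
    (μ : Measure (Patch (Fin n))) [IsProbabilityMeasure μ] (hμ : μ (hull T₀)ᶜ = 0)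
    (hinv : ∀ t, MeasurePreserving (translate t) μ μ) : PurePoint μ := by
  have hℓ0 : ℓ ≠ 0 := fun h => by
    obtain ⟨x, -⟩ := htil
    exact (hℓ (x 0)).ne' (congrFun h _)
  obtain ⟨q, h1, h2⟩ := exists_unit_poly (by linarith) hℓ0 heig hunit
  obtain ⟨t, N, h3, h4⟩ := quad_of_unit hint hdeg h1 h2
  refine quadratic_unit σ hc hℓ (fun j => ?_) h3 h4 htil hfix hmin (by rw [hrank, hdeg]; rfl)
    μ hμ hinv
  rw [← heig, Finset.sum_list_map_count, Finset.sum_subset (Finset.subset_univ _)]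
  · simp [hM, mul_comm]
  · intro i _ hi
    simp [List.count_eq_zero_of_not_mem (fun h => hi (List.mem_toFinset.2 h))]

end Pool.Agent.MP_4168de_an.OldQuadraticUnit
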